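import Mathlib
import Pool.Agent.TH529.Queue
import Pool.Agent.TH529.Orient

set_option autoImplicit false

/-!
Shifted labellings: the labelling of the elements of a finite set with an involution by
`D + 1, ..., D + |N|`.
-/

namespace Pool.Agent.TH529.SH

open Finset Classical

theorem shift_int {N : Type} [Fintype N] (τ : N → N) (hτ : ∀ x, τ (τ x) = x)
    (O : N → Prop) (z q : N → N) (d : N → ℕ)
    (hz : ∀ v, O v → q (z v) = v ∧ τ (z v) = z v ∧ d v < d (z v))
    (hX : ∀ x y, τ x = x → τ y = y → ¬ (O (q x) ∧ z (q x) = x) → ¬ (O (q y) ∧ z (q y) = y) →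
      x = y)
    (D : ℕ) (hD : 2 * (univ.filter (fun x => O x)).card ≤ D) :
    ∃ (f : N → ℤ), (∀ x y, f x = f y → x = y) ∧
      (∀ x, D + 1 ≤ f x ∧ f x ≤ D + Fintype.card N) ∧
      (∀ x, τ x ≠ x → f x + f (τ x) = Fintype.card N + 1 + 2 * D) ∧
      (∀ v w, O v → O w → f v + f (z v) = f w + f (z w) → v = w) ∧
      (∀ v, O v → Fintype.card N + 1 + 2 * D ≤ f v + f (z v) + D ∧
        f v + f (z v) ≤ Fintype.card N + 1 + 2 * D + D) := by
  obtain ⟨M, hM1, hM2, -, -, -⟩ := exists_orient τ hτ (fun _ => False) (fun _ => False)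
    (fun _ => False) (by simp) (by simp) (by simp)
  have hτinj : Function.Injective τ := by
    intro a b hab
    rw [← hτ a, ← hτ b]
    exact congrArg τ hab
  have hMτ : ∀ x, τ x ≠ x → x ∉ M → τ x ∈ M := by
    intro x hx hxM
    by_contra h
    exact hxM ((hM2 x hx).2 h)
  have hMτ' : ∀ x, x ∈ M → τ x ∉ M := fun x hx => (hM2 x (hM1 x hx)).1 hx
  have hτne : ∀ x, τ x ≠ x → τ (τ x) ≠ τ x := by
    intro x hx h
    exact hx (hτinj h)
  have hnf : (univ.filter (fun x => τ x ≠ x)).card = 2 * M.card := by
    have h3 : (univ.filter (fun x => τ x ≠ x)) = M ∪ M.image τ := by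
      ext x
      simp only [mem_filter, mem_univ, true_and, mem_union, mem_image]
      constructor
      · intro hx
        by_cases hxM : x ∈ M
        · exact Or.inl hxM
        · exact Or.inr ⟨τ x, hMτ x hx hxM, hτ x⟩
      · rintro (h | ⟨y, h, rfl⟩)
        · exact hM1 x h
        · exact hτne y (hM1 y h)
    rw [h3, card_union_of_disjoint, card_image_of_injective _ hτinj]
    · omega
    · rw [disjoint_left]
      intro x hx hx2
      obtain ⟨y, hy, rfl⟩ := mem_image.1 hx2
      exact hMτ' y hy hx
  have hfix : (univ.filter (fun x => τ x = x)).card + 2 * M.card = Fintype.card N := by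
    rw [← hnf, card_filter_add_card_filter_not]
    rfl
  obtain ⟨o, ho⟩ : ∃ o, (univ.filter (fun x => O x)).card = o := ⟨_, rfl⟩
  obtain ⟨s, hsM⟩ : ∃ s, M.card = s := ⟨_, rfl⟩
  obtain ⟨Y, hY⟩ : ∃ Y, (univ.filter (fun x => τ x = x)).card = Y := ⟨_, rfl⟩
  rw [hY, hsM] at hfix
  rw [ho] at hD
  -- number of fixed points
  have hYo : (∀ x, τ x = x → (O (q x) ∧ z (q x) = x)) → Y = o := by
    intro h
    rw [← hY, ← ho]
    symm
    apply card_bij (fun v _ => z v)
    · intro v hv
      exact mem_filter.2 ⟨mem_univ _, (hz v (mem_filter.1 hv).2).2.1⟩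
    · intro v hv w hw hvw
      rw [← (hz v (mem_filter.1 hv).2).1, ← (hz w (mem_filter.1 hw).2).1]
      exact congrArg q hvw
    · intro x hx
      have h3 := h x (mem_filter.1 hx).2
      exact ⟨q x, mem_filter.2 ⟨mem_univ _, h3.1⟩, h3.2⟩
  have hYo' : ∀ x, τ x = x → ¬ (O (q x) ∧ z (q x) = x) → Y = o + 1 := by
    intro x hx hx2
    have h3 : ((univ.filter (fun x => τ x = x)).erase x).card = o := by
      rw [← ho]
      symm
      apply card_bij (fun v _ => z v)
      · intro v hv
        have h4 := hz v (mem_filter.1 hv).2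
        refine mem_erase.2 ⟨?_, mem_filter.2 ⟨mem_univ _, h4.2.1⟩⟩
        intro h5
        apply hx2
        rw [← h5, h4.1]
        exact ⟨(mem_filter.1 hv).2, rfl⟩
      · intro v hv w hw hvw
        rw [← (hz v (mem_filter.1 hv).2).1, ← (hz w (mem_filter.1 hw).2).1]
        exact congrArg q hvw
      · intro y hy
        have h5 := (mem_filter.1 (mem_of_mem_erase hy)).2
        by_cases h3 : O (q y) ∧ z (q y) = y
        · exact ⟨q y, mem_filter.2 ⟨mem_univ _, h3.1⟩, h3.2⟩
        · exact absurd (hX x y hx h5 hx2 h3) (ne_of_mem_erase hy).symm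
    have h6 : x ∈ univ.filter (fun x => τ x = x) := mem_filter.2 ⟨mem_univ _, hx⟩
    rw [card_erase_of_mem h6, hY] at h3
    have h4 : 0 < Y := by
      rw [← hY]
      exact card_pos.2 ⟨x, mem_filter.2 ⟨mem_univ _, hx⟩⟩
    omega
  have hYle : o ≤ Y ∧ Y ≤ o + 1 := by
    by_cases h : ∀ x, τ x = x → (O (q x) ∧ z (q x) = x)
    · have := hYo h
      omega
    · push Not at h
      obtain ⟨x, hx, hx2⟩ := h
      have := hYo' x hx (by tauto)
      omega
  -- the pairs with an element of `O` come first
  set B := M.filter (fun x => O x ∨ O (τ x)) with hB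
  have hBo : B.card ≤ o := by
    rw [← ho]
    apply card_le_card_of_injOn (fun x => if O x then x else τ x)
    · intro x hx
      have hx' := mem_filter.1 (mem_coe.1 hx)
      rw [mem_coe, mem_filter]
      refine ⟨mem_univ _, ?_⟩
      by_cases h : O x
      · simpa only [h, if_true] using h
      · simp only [h, if_false]
        exact hx'.2.resolve_left h
    · intro x hx y hy hxy
      have hx' := (mem_filter.1 (mem_coe.1 hx)).1
      have hy' := (mem_filter.1 (mem_coe.1 hy)).1
      by_cases h : O x
      · by_cases h' : O y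
        · simpa only [h, h', if_true] using hxy
        · simp only [h, h', if_true, if_false] at hxy
          rw [hxy] at hx'
          exact absurd hx' (hMτ' y hy')
      · by_cases h' : O y
        · simp only [h, h', if_true, if_false] at hxy
          rw [← hxy] at hy'
          exact absurd hy' (hMτ' x hx')
        · simp only [h, h', if_false] at hxy
          exact hτinj hxy
  obtain ⟨g, hg1, hg2⟩ := exists_idx B
  obtain ⟨pos, p0, p1, p2⟩ := exists_ext M B (filter_subset _ _) (fun x => g x + 1) s hsM (by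
    intro x hx y hy h
    exact hg1 x hx y hy (by simpa using h)) (by
    intro x hx
    have h3 := hg2 x hx
    have h4 : B.card ≤ M.card := card_le_card (filter_subset _ _)
    omega)
  have p3 : ∀ x ∈ M, O x ∨ O (τ x) → pos x ≤ o := by
    intro x hx hO
    have h3 : x ∈ B := mem_filter.2 ⟨hx, hO⟩
    rw [p0 x h3]
    have := hg2 x h3
    omega
  -- keys
  set k : N → ℤ := fun v => if τ v = v then (Y : ℤ) else
      (if v ∈ M then (Y : ℤ) + pos v else 1 - pos (τ v)) with hk
  obtain ⟨I, hI1, hI2, hI3⟩ := queue d z o (univ.filter (fun x => O x)) k 1 ho (by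
    intro u hu
    exact (hz u (mem_filter.1 hu).2).2.2) (by
    intro v hv hvb
    by_cases hvf : τ v = v
    · have h3 : k v = Y := by simp only [hk, hvf, if_true]
      have h4 : ¬ (O (q v) ∧ z (q v) = v) := fun h =>
        hvb (q v) (mem_filter.2 ⟨mem_univ _, h.1⟩) h.2
      have h5 := hYo' v hvf h4
      right
      omega
    · by_cases hvM : v ∈ M
      · have h3 : k v = (Y : ℤ) + pos v := by simp only [hk, hvf, hvM, if_true, if_false]
        have h4 := p2 v hvM
        right
        omega
      · have h3 : k v = 1 - pos (τ v) := by simp only [hk, hvf, hvM, if_false]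
        have h4 := p2 (τ v) (hMτ v hvf hvM)
        left
        omega)
  have hIr : ∀ v, O v → 1 ≤ I v ∧ I v ≤ o := by
    intro v hv
    have := hI1 v (mem_filter.2 ⟨mem_univ _, hv⟩)
    omega
  have hIinj : ∀ v w, O v → O w → I v = I w → v = w := by
    intro v w hv hw hvw
    exact hI2 v (mem_filter.2 ⟨mem_univ _, hv⟩) w (mem_filter.2 ⟨mem_univ _, hw⟩) hvw
  -- the labelling
  set f : N → ℤ := fun x => if τ x = x then
      (if O (q x) ∧ z (q x) = x then D + s + I (q x) else D + s + Y) else
      (if x ∈ M then (D : ℤ) + s + Y + pos x else D + s + 1 - pos (τ x)) with hf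
  have f1 : ∀ x, τ x = x → O (q x) ∧ z (q x) = x → f x = D + s + I (q x) := by
    intro x hx hx2
    simp only [hf, hx, hx2, if_true, and_self]
  have f2 : ∀ x, τ x = x → ¬ (O (q x) ∧ z (q x) = x) → f x = D + s + Y := by
    intro x hx hx2
    simp only [hf, hx, hx2, if_true, if_false]
  have f3 : ∀ x, x ∈ M → f x = (D : ℤ) + s + Y + pos x := by
    intro x hx
    have hx1 := hM1 x hx
    simp only [hf, hx, hx1, if_true, if_false]
  have f4 : ∀ x, τ x ≠ x → x ∉ M → f x = (D : ℤ) + s + 1 - pos (τ x) := by
    intro x hx hx2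
    simp only [hf, hx, hx2, if_false]
  have fz : ∀ v, O v → f (z v) = D + s + I v := by
    intro v hv
    have h3 := hz v hv
    rw [f1 (z v) h3.2.1 (by rw [h3.1]; exact ⟨hv, rfl⟩), h3.1]
  have ffix : ∀ x, τ x = x → D + s + 1 ≤ f x ∧ f x ≤ D + s + Y := by
    intro x hx
    by_cases hx2 : O (q x) ∧ z (q x) = x
    · rw [f1 x hx hx2]
      have := hIr (q x) hx2.1
      omega
    · rw [f2 x hx hx2]
      have := hYo' x hx hx2
      omega
  have fM : ∀ x, x ∈ M → D + s + Y + 1 ≤ f x ∧ f x ≤ D + 2 * s + Y := by
    intro x hx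
    rw [f3 x hx]
    have := p2 x hx
    omega
  have fM' : ∀ x, τ x ≠ x → x ∉ M → D + 1 ≤ f x ∧ f x ≤ D + s := by
    intro x hx hx2
    rw [f4 x hx hx2]
    have := p2 (τ x) (hMτ x hx hx2)
    omega
  have hfinj : ∀ x y, f x = f y → x = y := by
    intro x y hxy
    by_cases hx : τ x = x
    · have a1 := ffix x hx
      by_cases hy : τ y = y
      · by_cases hx2 : O (q x) ∧ z (q x) = x
        · rw [f1 x hx hx2] at hxy
          by_cases hy2 : O (q y) ∧ z (q y) = y
          · rw [f1 y hy hy2] at hxy
            have h3 := hIinj (q x) (q y) hx2.1 hy2.1 (by omega)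
            rw [← hx2.2, ← hy2.2, h3]
          · rw [f2 y hy hy2] at hxy
            have h3 := hIr (q x) hx2.1
            have h4 := hYo' y hy hy2
            omega
        · by_cases hy2 : O (q y) ∧ z (q y) = y
          · rw [f2 x hx hx2, f1 y hy hy2] at hxy
            have h3 := hIr (q y) hy2.1
            have h4 := hYo' x hx hx2
            omega
          · exact hX x y hx hy hx2 hy2
      · by_cases hyM : y ∈ M
        · have := fM y hyM
          omega
        · have := fM' y hy hyM
          omega
    · by_cases hxM : x ∈ M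
      · have a1 := fM x hxM
        by_cases hy : τ y = y
        · have := ffix y hy
          omega
        · by_cases hyM : y ∈ M
          · rw [f3 x hxM, f3 y hyM] at hxy
            exact p1 x hxM y hyM (by omega)
          · have := fM' y hy hyM
            omega
      · have a1 := fM' x hx hxM
        by_cases hy : τ y = y
        · have := ffix y hy
          omega
        · by_cases hyM : y ∈ M
          · have := fM y hyM
            omega
          · rw [f4 x hx hxM, f4 y hy hyM] at hxy
            exact hτinj (p1 _ (hMτ x hx hxM) _ (hMτ y hy hyM) (by omega))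
  -- bounds on elements of `O`
  have fO : ∀ v, O v → (D : ℤ) + s + 1 - o ≤ f v ∧ f v ≤ D + s + Y + o := by
    intro v hv
    by_cases hvf : τ v = v
    · have := ffix v hvf
      omega
    · by_cases hvM : v ∈ M
      · rw [f3 v hvM]
        have := p3 v hvM (Or.inl hv)
        have := p2 v hvM
        omega
      · rw [f4 v hvf hvM]
        have := p3 (τ v) (hMτ v hvf hvM) (Or.inr (by rw [hτ]; exact hv))
        have := p2 (τ v) (hMτ v hvf hvM)
        omega
  refine ⟨f, hfinj, ?_, ?_, ?_, ?_⟩
  · intro x
    rw [← hfix]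
    push_cast
    by_cases hx : τ x = x
    · have := ffix x hx
      omega
    · by_cases hxM : x ∈ M
      · have := fM x hxM
        omega
      · have := fM' x hx hxM
        omega
  · intro x hx
    rw [← hfix]
    push_cast
    by_cases hxM : x ∈ M
    · rw [f3 x hxM, f4 (τ x) (hτne x hx) (hMτ' x hxM), hτ]
      ring
    · rw [f4 x hx hxM, f3 (τ x) (hMτ x hx hxM)]
      ring
  · -- the sums are strictly increasing in `f`
    have hmono : ∀ v w, O v → O w → f v < f w → I v < I w := by
      intro v w hv hw hvw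
      refine hI3 (fun x => f x - D - s) ?_ ?_ v (mem_filter.2 ⟨mem_univ _, hv⟩) w
        (mem_filter.2 ⟨mem_univ _, hw⟩) (by omega)
      · intro u hu
        rw [fz u (mem_filter.1 hu).2]
        ring
      · intro x hx hxb
        by_cases hxf : τ x = x
        · have h4 : ¬ (O (q x) ∧ z (q x) = x) := fun h =>
            hxb (q x) (mem_filter.2 ⟨mem_univ _, h.1⟩) h.2
          have h3 : k x = Y := by simp only [hk, hxf, if_true]
          rw [f2 x hxf h4, h3]
          ring
        · by_cases hxM : x ∈ M
          · have h3 : k x = (Y : ℤ) + pos x := by simp only [hk, hxf, hxM, if_true, if_false]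
            rw [f3 x hxM, h3]
            ring
          · have h3 : k x = 1 - pos (τ x) := by simp only [hk, hxf, hxM, if_false]
            rw [f4 x hxf hxM, h3]
            ring
    intro v w hv hw h
    rw [fz v hv, fz w hw] at h
    rcases lt_trichotomy (f v) (f w) with h3 | h3 | h3
    · have := hmono v w hv hw h3
      omega
    · exact hfinj v w h3
    · have := hmono w v hw hv h3
      omega
  · intro v hv
    rw [fz v hv, ← hfix]
    push_cast
    have h3 := fO v hv
    have h4 := hIr v hv
    omega

theorem shift_core {N : Type} [Fintype N] (τ : N → N) (hτ : ∀ x, τ (τ x) = x)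
    (O : N → Prop) (z q : N → N) (d : N → ℕ)
    (hz : ∀ v, O v → q (z v) = v ∧ τ (z v) = z v ∧ d v < d (z v))
    (hX : ∀ x y, τ x = x → τ y = y → ¬ (O (q x) ∧ z (q x) = x) → ¬ (O (q y) ∧ z (q y) = y) →
      x = y)
    (D : ℕ) (hD : 2 * (univ.filter (fun x => O x)).card ≤ D) :
    ∃ (f : N → ℕ), (∀ x y, f x = f y → x = y) ∧
      (∀ x, D + 1 ≤ f x ∧ f x ≤ D + Fintype.card N) ∧
      (∀ x, τ x ≠ x → f x + f (τ x) = Fintype.card N + 1 + 2 * D) ∧
      (∀ v w, O v → O w → f v + f (z v) = f w + f (z w) → v = w) ∧
      (∀ v, O v → Fintype.card N + 1 + 2 * D ≤ f v + f (z v) + D ∧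
        f v + f (z v) ≤ Fintype.card N + 1 + 2 * D + D) := by
  obtain ⟨f, a1, a2, a3, a4, a5⟩ := shift_int τ hτ O z q d hz hX D hD
  have hf : ∀ x, ((f x).toNat : ℤ) = f x := by
    intro x
    have := a2 x
    omega
  refine ⟨fun x => (f x).toNat, ?_, ?_, ?_, ?_, ?_⟩
  · intro x y hxy
    apply a1
    rw [← hf x, ← hf y]
    exact congrArg _ hxy
  · intro x
    have := hf x
    have := a2 x
    dsimp only
    omega
  · intro x hx
    have := hf x
    have := hf (τ x)
    have := a3 x hx
    dsimp only
    omega
  · intro v w hv hw h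
    apply a4 v w hv hw
    have := hf v
    have := hf (z v)
    have := hf w
    have := hf (z w)
    dsimp only at h
    omega
  · intro v hv
    have := hf v
    have := hf (z v)
    have := a5 v hv
    dsimp only
    omega

end Pool.Agent.TH529.SH
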