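import Mathlib
import Pool.Agent.TH529.Par
import Pool.Agent.TH529.SH.Rooted

set_option autoImplicit false

/-!
Shifted strongly antimagic labellings of trees.
-/

namespace Pool.Agent.TH529.SH

open Finset

theorem order_aux (S D dv du Sv Su : ℕ) (hD : 2 * D < S)
    (hv : (∃ j ρ, dv = 2 * j + 1 ∧ Sv = j * S + ρ ∧ D < ρ ∧ ρ + D < S) ∨
      (∃ j T, dv = 2 * j + 2 ∧ Sv = j * S + T ∧ S ≤ T + D ∧ T ≤ S + D))
    (hu : (∃ j ρ, du = 2 * j + 1 ∧ Su = j * S + ρ ∧ D < ρ ∧ ρ + D < S) ∨
      (∃ j T, du = 2 * j + 2 ∧ Su = j * S + T ∧ S ≤ T + D ∧ T ≤ S + D))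
    (h : dv < du) : Sv < Su := by
  have hmul : ∀ a b : ℕ, a ≤ b → a * S ≤ b * S := fun a b hab =>
    Nat.mul_le_mul_right _ hab
  rcases hv with ⟨j, ρ, v1, v2, v3, v4⟩ | ⟨j, T, v1, v2, v3, v4⟩
  · rcases hu with ⟨i, σ, u1, u2, u3, u4⟩ | ⟨i, T, u1, u2, u3, u4⟩
    · have h1 := hmul (j + 1) i (by omega)
      rw [Nat.add_mul, Nat.one_mul] at h1
      omega
    · have h1 := hmul j i (by omega)
      omega
  · rcases hu with ⟨i, σ, u1, u2, u3, u4⟩ | ⟨i, T', u1, u2, u3, u4⟩
    · have h1 := hmul (j + 1) i (by omega)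
      rw [Nat.add_mul, Nat.one_mul] at h1
      omega
    · have h1 := hmul (j + 1) i (by omega)
      rw [Nat.add_mul, Nat.one_mul] at h1
      omega

theorem tree_shift {V : Type} [Fintype V] [DecidableEq V] (G : SimpleGraph V)
    [DecidableRel G.Adj] (hG : G.IsTree) (hn : 3 ≤ Fintype.card V) (D : ℕ)
    (hD : 2 * (Finset.filter (fun v : V => Even (G.degree v)) Finset.univ).card ≤ D) :
    ∃ f : Sym2 V → ℕ,
      Set.BijOn f G.edgeSet (Set.Icc (D + 1) (D + G.edgeFinset.card)) ∧
      Function.Injective (fun v : V => ∑ w ∈ G.neighborFinset v, f s(v, w)) ∧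
      ∀ u v : V, G.degree v < G.degree u →
        (∑ w ∈ G.neighborFinset v, f s(v, w)) <
          (∑ w ∈ G.neighborFinset u, f s(u, w)) := by
  obtain ⟨m, hm⟩ : ∃ m, G.edgeFinset.card = m := ⟨_, rfl⟩
  have hmV : m + 1 = Fintype.card V := by
    rw [← hm]
    exact hG.card_edgeFinset
  have hnt : Nontrivial V := Fintype.one_lt_card_iff_nontrivial.1 (by omega)
  -- the root
  obtain ⟨r, hr1⟩ := hG.exists_vert_degree_one_of_nontrivial
  obtain ⟨par, hp1, hp2⟩ := exists_parent G hG r
  have hmemch : ∀ v x, x ∈ chl r par v ↔ x ≠ r ∧ par x = v := by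
    intro v x
    unfold chl
    simp only [mem_filter, mem_univ, true_and]
  have hdr : G.dist r r = 0 := SimpleGraph.dist_self
  have hparn : ∀ v, v ≠ r → par v ∉ chl r par v := by
    intro v hv h
    rw [hmemch] at h
    have h3 := (hp1 v hv).2
    have h4 := (hp1 _ h.1).2
    rw [h.2] at h4
    omega
  have hnbr : ∀ v, v ≠ r → G.neighborFinset v = insert (par v) (chl r par v) := by
    intro v hv
    ext w
    rw [SimpleGraph.mem_neighborFinset, mem_insert, hmemch]
    constructor
    · intro h
      rcases hG.dist_eq_dist_add_one_of_adj r h with h3 | h3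
      · exact Or.inl (hp2 v w h h3).symm
      · refine Or.inr ⟨?_, hp2 w v h.symm h3⟩
        rintro rfl
        omega
    · rintro (h | h)
      · rw [h]
        exact (hp1 v hv).1.symm
      · have h3 := (hp1 w h.1).1
        rw [h.2] at h3
        exact h3
  have hnbrr : G.neighborFinset r = chl r par r := by
    ext w
    rw [SimpleGraph.mem_neighborFinset, hmemch]
    constructor
    · intro h
      rcases hG.dist_eq_dist_add_one_of_adj r h with h3 | h3
      · omega
      · refine ⟨?_, hp2 w r h.symm h3⟩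
        rintro rfl
        omega
    · intro h
      have h3 := (hp1 w h.1).1
      rw [h.2] at h3
      exact h3
  have hdeg : ∀ v, v ≠ r → G.degree v = (chl r par v).card + 1 := by
    intro v hv
    rw [← SimpleGraph.card_neighborFinset_eq_degree, hnbr v hv, card_insert_of_notMem (hparn v hv)]
  have hdegr : G.degree r = (chl r par r).card := by
    rw [← SimpleGraph.card_neighborFinset_eq_degree, hnbrr]
  have hDO : 2 * (univ.filter (fun v => v ≠ r ∧ Odd (chl r par v).card)).card ≤ D := by
    refine le_trans (Nat.mul_le_mul_left 2 (card_le_card ?_)) hD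
    intro v hv
    rw [mem_filter] at hv ⊢
    refine ⟨mem_univ _, ?_⟩
    rw [hdeg v hv.2.1]
    exact hv.2.2.add_one
  obtain ⟨S, hS0⟩ : ∃ S, m + 1 + 2 * D = S := ⟨_, rfl⟩
  obtain ⟨f, zf, a1, a2, a3, a4, a5, a7⟩ := rooted r par (fun x => G.dist r x)
    (fun x hx => by
      have := (hp1 x hx).2
      omega) m hmV D (by convert hDO)
  rw [hS0] at a3 a4 a7
  classical
  set F : Sym2 V → ℕ := fun e => if h : ∃ x, x ≠ r ∧ e = s(x, par x) then f h.choose else 0
    with hF
  have hFx : ∀ x, x ≠ r → F s(x, par x) = f x := by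
    intro x hx
    have hex : ∃ y, y ≠ r ∧ s(x, par x) = s(y, par y) := ⟨x, hx, rfl⟩
    have h3 : F s(x, par x) = f hex.choose := by
      simp only [hF]
      rw [dif_pos hex]
    rw [h3]
    obtain ⟨h4, h5⟩ := hex.choose_spec
    rw [Sym2.eq_iff] at h5
    rcases h5 with h5 | h5
    · rw [← h5.1]
    · exfalso
      have h6 := (hp1 x hx).2
      have h7 := (hp1 _ h4).2
      rw [h5.2, ← h5.1] at *
      omega
  have hedge : ∀ e, e ∈ G.edgeSet → ∃ x, x ≠ r ∧ e = s(x, par x) := by
    intro e
    induction e using Sym2.ind with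
    | _ a b =>
      intro h
      rw [SimpleGraph.mem_edgeSet] at h
      rcases hG.dist_eq_dist_add_one_of_adj r h with h3 | h3
      · refine ⟨a, ?_, ?_⟩
        · rintro rfl
          omega
        · rw [hp2 a b h h3]
      · refine ⟨b, ?_, ?_⟩
        · rintro rfl
          omega
        · rw [hp2 b a h.symm h3]
          exact Sym2.eq_swap
  have hsumch : ∀ v, ∑ x ∈ chl r par v, F s(v, x) = ∑ x ∈ chl r par v, f x := by
    intro v
    apply Finset.sum_congr rfl
    intro x hx
    rw [hmemch] at hx
    rw [← hFx x hx.1, hx.2]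
    exact congrArg F Sym2.eq_swap
  have hS : ∀ v, v ≠ r → ∑ w ∈ G.neighborFinset v, F s(v, w) = f v + ∑ x ∈ chl r par v, f x := by
    intro v hv
    rw [hnbr v hv, Finset.sum_insert (hparn v hv), hFx v hv, hsumch]
  have hSr : ∑ w ∈ G.neighborFinset r, F s(r, w) = ∑ x ∈ chl r par r, f x := by
    rw [hnbrr, hsumch]
  -- the values of the sums
  have hSe : ∀ v j, v ≠ r → (chl r par v).card = 2 * j →
      ∑ w ∈ G.neighborFinset v, F s(v, w) = j * S + f v := by
    intro v j hv hj
    have h3 := a3 v (by rw [hj]; exact even_two_mul j)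
    rw [hj] at h3
    rw [hS v hv]
    have h4 : 2 * j * S = 2 * (j * S) := by ring
    omega
  have hSo : ∀ v j, v ≠ r → (chl r par v).card = 2 * j + 1 →
      ∑ w ∈ G.neighborFinset v, F s(v, w) = j * S + (f v + zf v) := by
    intro v j hv hj
    have h3 := a4 v hv (by rw [hj]; exact odd_two_mul_add_one j)
    rw [hj] at h3
    rw [hS v hv]
    have h4 : (2 * j + 1 - 1) * S = 2 * (j * S) := by
      rw [Nat.add_sub_cancel]
      ring
    omega
  -- profile of a vertex
  have hprof : ∀ v, (∃ j ρ, G.degree v = 2 * j + 1 ∧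
      ∑ w ∈ G.neighborFinset v, F s(v, w) = j * S + ρ ∧ D < ρ ∧ ρ + D < S) ∨
      (∃ j T, G.degree v = 2 * j + 2 ∧
        ∑ w ∈ G.neighborFinset v, F s(v, w) = j * S + T ∧ S ≤ T + D ∧ T ≤ S + D) := by
    intro v
    by_cases hv : v = r
    · subst hv
      left
      have h3 : (chl v par v).card = 1 := by omega
      obtain ⟨x, hx⟩ := Finset.card_eq_one.1 h3
      have hxr : x ≠ v := by
        have : x ∈ chl v par v := by
          rw [hx]
          exact mem_singleton_self x
        exact ((hmemch _ _).1 this).1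
      have h4 := a2 x hxr
      refine ⟨0, f x, by omega, ?_, by omega, by omega⟩
      rw [hSr, hx, Finset.sum_singleton]
      omega
    · rcases Nat.even_or_odd' (chl r par v).card with ⟨j, hj | hj⟩
      · left
        have h4 := a2 v hv
        refine ⟨j, f v, ?_, hSe v j hv hj, by omega, by omega⟩
        rw [hdeg v hv, hj]
      · right
        have h3 := a7 v hv (by rw [hj]; exact odd_two_mul_add_one j)
        refine ⟨j, f v + zf v, ?_, hSo v j hv hj, h3.1, h3.2⟩
        rw [hdeg v hv, hj]
  have hord : ∀ u v : V, G.degree v < G.degree u →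
        (∑ w ∈ G.neighborFinset v, F s(v, w)) <
          (∑ w ∈ G.neighborFinset u, F s(u, w)) := by
    intro u v h
    exact order_aux S D _ _ _ _ (by omega) (hprof v) (hprof u) h
  -- two adjacent leaves are impossible
  have hleaf : ∀ x, x ∈ chl r par r → (chl r par r).card = 1 → (chl r par x).card = 0 → False := by
    intro x hx h3 h4
    have hxr := (hmemch _ _).1 hx
    have h5 : (univ \ {r, x} : Finset V).Nonempty := by
      rw [← card_pos, card_sdiff_of_subset (subset_univ _)]
      have h6 : ({r, x} : Finset V).card ≤ 2 := card_le_two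
      rw [card_univ]
      omega
    obtain ⟨w, hw, hmin⟩ := exists_min_image _ (fun y => G.dist r y) h5
    simp only [mem_sdiff, mem_univ, true_and, mem_insert, mem_singleton, not_or] at hw hmin
    have h6 := hp1 w hw.1
    have h7 : par w ≠ r := by
      intro h8
      have h9 : w ∈ chl r par r := (hmemch _ _).2 ⟨hw.1, h8⟩
      exact hw.2 (Finset.card_le_one.1 h3.le w h9 x hx)
    have h8 : par w ≠ x := by
      intro h9
      have h10 : w ∈ chl r par x := (hmemch _ _).2 ⟨hw.1, h9⟩
      rw [card_eq_zero] at h4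
      rw [h4] at h10
      exact absurd h10 (notMem_empty _)
    have h9 := hmin (par w) ⟨h7, h8⟩
    omega
  have hroot : ∀ v, v ≠ r → (∑ w ∈ G.neighborFinset v, F s(v, w)) =
      (∑ w ∈ G.neighborFinset r, F s(r, w)) → False := by
    intro v hv h
    have hd : G.degree v = G.degree r := by
      rcases lt_trichotomy (G.degree v) (G.degree r) with h3 | h3 | h3
      · have := hord _ _ h3
        omega
      · exact h3
      · have := hord _ _ h3
        omega
    have h4 : (chl r par r).card = 1 := by omega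
    have h5 : (chl r par v).card = 0 := by
      have := hdeg v hv
      omega
    obtain ⟨x, hx⟩ := Finset.card_eq_one.1 h4
    have hxm : x ∈ chl r par r := by
      rw [hx]
      exact mem_singleton_self x
    have hxr : x ≠ r := ((hmemch _ _).1 hxm).1
    rw [hSe v 0 hv (by omega), hSr, hx, Finset.sum_singleton] at h
    have h6 : v = x := a1 v x hv hxr (by omega)
    rw [← h6] at hxm
    exact hleaf v hxm h4 h5
  refine ⟨F, ?_, ?_, hord⟩
  · -- bijection
    have hmaps : Set.MapsTo F (G.edgeFinset : Set (Sym2 V)) (Finset.Icc (D + 1) (D + m) : Finset ℕ) := by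
      intro e he
      rw [SimpleGraph.coe_edgeFinset] at he
      obtain ⟨x, hx, rfl⟩ := hedge e he
      rw [hFx x hx, coe_Icc]
      exact a2 x hx
    have hinj : Set.InjOn F (G.edgeFinset : Set (Sym2 V)) := by
      intro e he e' he' hee
      rw [SimpleGraph.coe_edgeFinset] at he he'
      obtain ⟨x, hx, rfl⟩ := hedge e he
      obtain ⟨y, hy, rfl⟩ := hedge e' he'
      rw [hFx x hx, hFx y hy] at hee
      rw [a1 x y hx hy hee]
    have hsurj := Finset.surjOn_of_injOn_of_card_le F hmaps hinj (by simp [hm])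
    rw [SimpleGraph.coe_edgeFinset, coe_Icc] at hmaps hsurj
    rw [SimpleGraph.coe_edgeFinset] at hinj
    rw [hm]
    exact ⟨hmaps, hinj, hsurj⟩
  · intro u v huv
    have huv' : (∑ w ∈ G.neighborFinset u, F s(u, w)) = (∑ w ∈ G.neighborFinset v, F s(v, w)) :=
      huv
    by_contra hne
    by_cases hu : u = r
    · rw [hu] at huv' hne
      exact hroot v (Ne.symm hne) huv'.symm
    · by_cases hv : v = r
      · rw [hv] at huv'
        exact hroot u hu huv'
      · have hd : G.degree u = G.degree v := by
          rcases lt_trichotomy (G.degree u) (G.degree v) with h3 | h3 | h3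
          · have := hord _ _ h3
            omega
          · exact h3
          · have := hord _ _ h3
            omega
        rw [hdeg u hu, hdeg v hv] at hd
        rcases Nat.even_or_odd' (chl r par v).card with ⟨j, hj | hj⟩
        · rw [hSe u j hu (by omega), hSe v j hv hj] at huv'
          exact hne (a1 u v hu hv (by omega))
        · rw [hSo u j hu (by omega), hSo v j hv hj] at huv'
          refine hne (a5 u v hu hv ?_ ?_ (by omega))
          · rw [show (chl r par u).card = 2 * j + 1 by omega]
            exact odd_two_mul_add_one j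
          · rw [hj]
            exact odd_two_mul_add_one j

end Pool.Agent.TH529.SH
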